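import Mathlib
import Pool.Agent.KS6_36.HemiGroup.Final

set_option autoImplicit false

namespace Pool.Agent.Results.MP_7aba51_co.FrobeniusSymmetry

open Pool.Agent.KS6_36.HemiGroup

/-- For every odd prime power `q = p ^ n` with `q ≡ 1 mod 4` and `q ≡ 0, 2 mod 3` the Hermitian
surface `H(3,q^2)` has a hemisystem `S` invariant under a group `G` of semilinear isometries which
meets the scalars trivially (so it acts faithfully on the projective space), of order
`3n (q^2 - q + 1)`, and `6n (q^2 - q + 1)` if `p = 3`. It contains linear isometries `c`, `h` of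
orders `q^2 - q + 1` and `3` with `h c h⁻¹ = c ^ (q^2)`. -/
theorem result (F : Type) [Field F] [Fintype F] (p n q : ℕ) (hp : p.Prime) (hq : q = p ^ n)
    (hF : Fintype.card F = q ^ 2) (h4 : q % 4 = 1) (h3 : q % 3 = 0 ∨ q % 3 = 2) :
    ∃ (S : Set (Submodule F (Fin 4 → F))) (G : Subgroup (Equiv.Perm (Fin 4 → F)))
      (c h : Equiv.Perm (Fin 4 → F)),
      IsHemisystem q S ∧
      (∀ g ∈ G, ∃ τ : F ≃+* F, IsSemiIsometry q g τ) ∧
      (∀ g ∈ G, ∀ L ∈ S, ∃ L' ∈ S, (L' : Set (Fin 4 → F)) = ⇑g '' (L : Set (Fin 4 → F))) ∧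
      (∀ g ∈ G, (∃ a : F, ∀ v, g v = a • v) → g = 1) ∧
      Nat.card G = (q ^ 2 - q + 1) * (if p = 3 then 6 * n else 3 * n) ∧
      c ∈ G ∧ h ∈ G ∧ IsSemiIsometry q c (RingEquiv.refl F) ∧
      IsSemiIsometry q h (RingEquiv.refl F) ∧
      orderOf c = q ^ 2 - q + 1 ∧ orderOf h = 3 ∧ h * c * h⁻¹ = c ^ (q ^ 2) :=
  main F p n q hp hq hF h4 h3

end Pool.Agent.Results.MP_7aba51_co.FrobeniusSymmetry
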